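import Pool.Agent.H35.CR.Main

/-!
# The complement of the core of a strictly pseudoconvex domain need not be connected
-/

set_option autoImplicit false

open Pool.Agent.H35.CR

namespace Pool.Agent.Results.MP_d5c4e7_an.CoreDisconnects

/-- There is a strictly pseudoconvex domain `Ω` in `ℂ²` with smooth boundary for which
`Ω \ core Ω` is not (pre)connected. -/
theorem result : ∃ Ω : Set (EuclideanSpace ℂ (Fin 2)),
    StrictlyPseudoconvexSmooth Ω ∧ ¬ IsPreconnected (Ω \ core Ω) :=
  spFinal

end Pool.Agent.Results.MP_d5c4e7_an.CoreDisconnects
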